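import Pool.Agent.H54.KVA.Defs

/-!
# Existence of adapted bases
-/

set_option autoImplicit false

namespace Pool.KVA

open Finset Real MeasureTheory
open Pool.Agent.H49.Ent Pool.Agent.H32.Dense Pool.STK

namespace Eig

variable {Ω T : Type} [Fintype Ω]

lemma Ex_sum {ι : Type} (q : Ω → ℝ) (s : Finset ι) (f : ι → Ω → ℝ) :
    Ex q (fun ω => ∑ i ∈ s, f i ω) = ∑ i ∈ s, Ex q (f i) := by
  unfold Ex
  simp_rw [Finset.mul_sum]
  exact Finset.sum_comm

lemma Var_nonneg {q : Ω → ℝ} (hq : ∀ ω, 0 ≤ q ω) (h1 : ∑ ω, q ω = 1) (f : Ω → ℝ) :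
    0 ≤ Var q f := by
  have h : Ex q (fun ω => (f ω - Ex q f) ^ 2) = Var q f := by
    have e : (fun ω => (f ω - Ex q f) ^ 2) =
        fun ω => (f ω ^ 2 - (2 * Ex q f) * f ω) + Ex q f ^ 2 := by
      funext ω; ring
    rw [e, Ex_add, Ex_sub, Ex_smul, Ex_const h1]
    unfold Var
    ring
  rw [← h]
  exact Ex_nonneg hq fun ω _ => sq_nonneg _

lemma cVar_nonneg {p : Ω → ℝ} (hp : IsLaw p) (f : Ω → ℝ) (Z : Ω → T) : 0 ≤ cVar p f Z := by
  unfold cVar
  refine Ex_nonneg hp.nonneg fun ω hω => ?_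
  exact Var_nonneg (fun ω' => cond_nonneg hp.nonneg Z (Z ω) ω')
    (sum_cond p Z (law_pos hp.nonneg Z hω).ne') f

/-- The covariance matrix. -/
noncomputable def Mx {d : ℕ} (p : Ω → ℝ) (g : Fin d → Ω → ℝ) (Z : Ω → T) :
    Matrix (Fin d) (Fin d) ℝ :=
  Matrix.of fun k l => Ex p (fun ω => Ex (cond p Z (Z ω)) (fun ω' => g k ω' * g l ω') -
    Ex (cond p Z (Z ω)) (g k) * Ex (cond p Z (Z ω)) (g l))

lemma Mx_symm {d : ℕ} (p : Ω → ℝ) (g : Fin d → Ω → ℝ) (Z : Ω → T) : (Mx p g Z).IsHermitian := by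
  ext k l
  simp only [Mx, Matrix.conjTranspose_apply, Matrix.of_apply, star_trivial]
  congr 1
  funext ω
  rw [mul_comm (Ex _ (g l))]
  congr 1
  congr 1
  funext ω'
  exact mul_comm _ _

lemma cVar_lin {d : ℕ} (p : Ω → ℝ) (g : Fin d → Ω → ℝ) (Z : Ω → T) (a : Fin d → ℝ) :
    cVar p (fun ω => ∑ k, a k * g k ω) Z = ∑ k, ∑ l, a k * a l * Mx p g Z k l := by
  have h1 : ∀ q : Ω → ℝ, Var q (fun ω => ∑ k, a k * g k ω) =
      ∑ k, ∑ l, a k * a l * (Ex q (fun ω' => g k ω' * g l ω') - Ex q (g k) * Ex q (g l)) := by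
    intro q
    unfold Var
    have e1 : (fun ω => (∑ k, a k * g k ω) ^ 2) =
        fun ω => ∑ k, ∑ l, (a k * a l) * (g k ω * g l ω) := by
      funext ω
      rw [sq, Finset.sum_mul_sum]
      exact Finset.sum_congr rfl fun k _ => Finset.sum_congr rfl fun l _ => by ring
    have e2 : Ex q (fun ω => ∑ k, a k * g k ω) = ∑ k, a k * Ex q (g k) := by
      rw [Ex_sum]
      exact Finset.sum_congr rfl fun k _ => Ex_smul q (a k) (g k)
    rw [e1, e2, sq, Finset.sum_mul_sum, Ex_sum, ← Finset.sum_sub_distrib]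
    refine Finset.sum_congr rfl fun k _ => ?_
    rw [Ex_sum, ← Finset.sum_sub_distrib]
    refine Finset.sum_congr rfl fun l _ => ?_
    rw [Ex_smul]
    ring
  unfold cVar
  simp_rw [h1]
  rw [Ex_sum]
  refine Finset.sum_congr rfl fun k _ => ?_
  rw [Ex_sum]
  refine Finset.sum_congr rfl fun l _ => ?_
  rw [Ex_smul]
  rfl

end Eig

open Eig

theorem eig_thm : EIGStmt := by
  intro d Ω _ p Y j hp
  classical
  set g : Fin d → Ω → ℝ := fun k ω => 2 ^ j * Y ω k with hg
  have hM := Mx_symm p g (Fl Y j)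
  set M := Mx p g (Fl Y j) with hMdef
  set v : Fin d → Fin d → ℝ := fun i l => (hM.eigenvectorBasis i) l with hv
  set lam : Fin d → ℝ := fun i => hM.eigenvalues i with hlam
  have hon : ON v := by
    intro i k
    have h := (orthonormal_iff_ite.mp hM.eigenvectorBasis.orthonormal) i k
    rw [← h]
    simp only [PiLp.inner_apply, RCLike.inner_apply, conj_trivial, ip, hv]
    exact Finset.sum_congr rfl fun l _ => mul_comm _ _
  have heig : ∀ i k, ∑ l, M k l * v i l = lam i * v i k := by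
    intro i k
    have h := congrFun (hM.mulVec_eigenvectorBasis i) k
    simpa [Matrix.mulVec, dotProduct, hv, hlam] using h
  have hform : ∀ η : Fin d → ℝ,
      cVar p (fun ω => 2 ^ j * ip (lc v η) (Y ω)) (Fl Y j) = ∑ i, lam i * η i ^ 2 := by
    intro η
    have e0 : (fun ω => (2 : ℝ) ^ j * ip (lc v η) (Y ω)) =
        fun ω => ∑ k, lc v η k * g k ω := by
      funext ω
      simp only [ip, hg, Finset.mul_sum]
      exact Finset.sum_congr rfl fun k _ => by ring
    rw [e0, cVar_lin]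
    have e1 : ∀ k, ∑ l, lc v η k * lc v η l * M k l =
        lc v η k * ∑ i, η i * (lam i * v i k) := by
      intro k
      have e2 : ∑ l, lc v η k * lc v η l * M k l = lc v η k * ∑ l, lc v η l * M k l := by
        rw [Finset.mul_sum]
        exact Finset.sum_congr rfl fun l _ => by ring
      rw [e2]
      congr 1
      have e3 : ∑ l, lc v η l * M k l = ∑ i, η i * ∑ l, M k l * v i l := by
        simp only [lc, Finset.sum_mul, Finset.mul_sum]
        rw [Finset.sum_comm]
        exact Finset.sum_congr rfl fun i _ => Finset.sum_congr rfl fun l _ => by ring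
      rw [e3]
      exact Finset.sum_congr rfl fun i _ => by rw [heig]
    rw [Finset.sum_congr rfl fun k _ => e1 k]
    have e4 : ∑ k, lc v η k * ∑ i, η i * (lam i * v i k) =
        ∑ i, ∑ i', η i' * η i * lam i * ip (v i') (v i) := by
      simp only [lc, ip, Finset.mul_sum, Finset.sum_mul]
      rw [Finset.sum_comm]
      refine Finset.sum_congr rfl fun i _ => ?_
      rw [Finset.sum_comm]
      exact Finset.sum_congr rfl fun i' _ => Finset.sum_congr rfl fun k _ => by ring
    rw [e4]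
    refine Finset.sum_congr rfl fun i _ => ?_
    rw [Finset.sum_eq_single i]
    · rw [hon i i, if_pos rfl]; ring
    · intro i' _ hne
      rw [hon i' i, if_neg hne, mul_zero]
    · intro h; exact absurd (Finset.mem_univ i) h
  refine ⟨v, lam, ⟨hon, ?_, hform⟩⟩
  intro i
  have h := hform (fun k => if k = i then 1 else 0)
  have h2 : ∑ k, lam k * (if k = i then (1 : ℝ) else 0) ^ 2 = lam i := by
    rw [Finset.sum_eq_single i]
    · simp
    · intro k _ hk; simp [hk]
    · intro h; exact absurd (Finset.mem_univ i) h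
  rw [h2] at h
  rw [← h]
  exact cVar_nonneg hp _ _

end Pool.KVA
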