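import Pool.Agent.H54.KVA.Defs

/-!
# Esseen's inequality for cells
-/

set_option autoImplicit false

namespace Pool.KVA

open Finset Real MeasureTheory
open Pool.Agent.H49.Ent Pool.Agent.H32.Dense Pool.STK

namespace Ess

open scoped ComplexConjugate

variable {d : ℕ}

/-- The character. -/
noncomputable def G (y η : Fin d → ℝ) : ℂ :=
  Complex.exp (Complex.I * ((∑ i, η i * y i : ℝ) : ℂ))

lemma G_cont (y : Fin d → ℝ) : Continuous (G y) := by
  unfold G
  fun_prop

lemma norm_exp_I (r : ℝ) : ‖Complex.exp (Complex.I * (r : ℂ))‖ = 1 := by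
  rw [mul_comm]
  exact Complex.norm_exp_ofReal_mul_I r

lemma norm_G (y η : Fin d → ℝ) : ‖G y η‖ = 1 := norm_exp_I _

lemma conj_exp_I (r : ℝ) : conj (Complex.exp (Complex.I * (r : ℂ))) =
    Complex.exp (Complex.I * ((-r : ℝ) : ℂ)) := by
  rw [← Complex.exp_conj]
  congr 1
  simp

lemma G_sub (y a b : Fin d → ℝ) : G y (a - b) = G y a * conj (G y b) := by
  unfold G
  rw [conj_exp_I, ← Complex.exp_add]
  congr 1
  rw [← mul_add, ← Complex.ofReal_add]
  congr 2
  simp only [Pi.sub_apply]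
  rw [← Finset.sum_neg_distrib, ← Finset.sum_add_distrib]
  exact Finset.sum_congr rfl fun i _ => by ring

lemma half_le_cos {x : ℝ} (h : |x| ≤ 1) : 1 / 2 ≤ Real.cos x := by
  have h1 := Real.one_sub_sq_div_two_le_cos (x := x)
  have h2 : x ^ 2 ≤ 1 := by
    rw [← sq_abs]
    have := abs_nonneg x
    nlinarith
  linarith

/-- The integral of a character over an interval. -/
lemma one_dim {c y : ℝ} (hc : 0 < c) (hy : |y| * c ≤ 1) :
    c / 2 ≤ ‖∫ h in Set.Icc 0 c, Complex.exp (Complex.I * ((h * y : ℝ) : ℂ))‖ := by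
  have hcont : Continuous fun h : ℝ => Complex.exp (Complex.I * ((h * y : ℝ) : ℂ)) := by
    fun_prop
  have hint : IntegrableOn (fun h : ℝ => Complex.exp (Complex.I * ((h * y : ℝ) : ℂ)))
      (Set.Icc 0 c) := hcont.continuousOn.integrableOn_compact isCompact_Icc
  have h1 : (∫ h in Set.Icc 0 c, Complex.exp (Complex.I * ((h * y : ℝ) : ℂ))).re =
      ∫ h in Set.Icc 0 c, Real.cos (h * y) := by
    have h2 := integral_re (𝕜 := ℂ) hint
    simp only [RCLike.re_to_complex] at h2
    rw [← h2]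
    refine integral_congr_ae (Filter.Eventually.of_forall fun h => ?_)
    simp only
    rw [mul_comm Complex.I, Complex.exp_ofReal_mul_I_re]
  have h3 : c / 2 ≤ ∫ h in Set.Icc 0 c, Real.cos (h * y) := by
    have h4 : ∫ _h in Set.Icc 0 c, (1 / 2 : ℝ) = c / 2 := by
      rw [setIntegral_const]
      simp [Measure.real, hc.le]
      ring
    rw [← h4]
    refine setIntegral_mono_on ?_ ?_ measurableSet_Icc ?_
    · exact integrableOn_const (by simp)
    · exact (Continuous.continuousOn (by fun_prop)).integrableOn_compact isCompact_Icc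
    · intro h hh
      refine half_le_cos ?_
      rw [abs_mul, abs_of_nonneg hh.1]
      calc h * |y| ≤ c * |y| := mul_le_mul_of_nonneg_right hh.2 (abs_nonneg y)
        _ = |y| * c := mul_comm _ _
        _ ≤ 1 := hy
  calc c / 2 ≤ _ := h3
    _ = _ := h1.symm
    _ ≤ _ := Complex.re_le_norm _

/-- The integral of a character over the cube. -/
lemma int_cube (y : Fin d → ℝ) (hy : ∀ i, |y i| ≤ d) :
    (1 / ((d : ℝ) + 1) / 2) ^ d ≤ ‖∫ η in cube d, G y η‖ := by
  have hc : (0 : ℝ) < 1 / ((d : ℝ) + 1) := by positivity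
  have h1 : ∫ η in cube d, G y η =
      ∏ i, ∫ h in Set.Icc 0 (1 / ((d : ℝ) + 1)), Complex.exp (Complex.I * ((h * y i : ℝ) : ℂ)) := by
    unfold cube
    rw [volume_pi, Measure.restrict_pi_pi,
      ← integral_fintype_prod_eq_prod (𝕜 := ℂ)
        (fun (i : Fin d) (h : ℝ) => Complex.exp (Complex.I * ((h * y i : ℝ) : ℂ)))]
    refine integral_congr_ae (Filter.Eventually.of_forall fun η => ?_)
    simp only [G]
    rw [← Complex.exp_sum]
    congr 1
    push_cast
    rw [Finset.mul_sum]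
  rw [h1, norm_prod]
  calc (1 / ((d : ℝ) + 1) / 2) ^ d = ∏ _i : Fin d, (1 / ((d : ℝ) + 1) / 2) := by
        rw [Finset.prod_const, Finset.card_univ, Fintype.card_fin]
    _ ≤ _ := by
      refine Finset.prod_le_prod (fun i _ => by positivity) fun i _ => one_dim hc ?_
      rw [mul_one_div, div_le_one (by positivity)]
      linarith [hy i]

/-- The double integral. -/
lemma int_cube2 (y : Fin d → ℝ) :
    ∫ η in cube d ×ˢ cube d, G y (η.1 - η.2) = ((‖∫ η in cube d, G y η‖ ^ 2 : ℝ) : ℂ) := by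
  have h1 : ∀ η : (Fin d → ℝ) × (Fin d → ℝ), G y (η.1 - η.2) = G y η.1 * conj (G y η.2) :=
    fun η => G_sub y η.1 η.2
  simp_rw [h1]
  rw [Measure.volume_eq_prod, setIntegral_prod_mul (L := ℂ) (fun η => G y η)
    (fun η => conj (G y η))]
  rw [integral_conj (𝕜 := ℂ), Complex.mul_conj, Complex.normSq_eq_norm_sq]

lemma cube_compact (d : ℕ) : IsCompact (cube d) := isCompact_univ_pi fun _ => isCompact_Icc

lemma coord_le {v : Fin d → Fin d → ℝ} (hv : ON v) (i l : Fin d) : |v i l| ≤ 1 := by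
  have h := hv i i
  rw [if_pos rfl] at h
  unfold ip at h
  have h1 : v i l * v i l ≤ 1 := by
    rw [← h]
    exact Finset.single_le_sum (f := fun l => v i l * v i l) (fun l _ => mul_self_nonneg _)
      (Finset.mem_univ l)
  rw [abs_le]
  constructor <;> nlinarith

lemma ip_lc (v : Fin d → Fin d → ℝ) (η x : Fin d → ℝ) :
    ip (lc v η) x = ∑ i, η i * ip (v i) x := by
  unfold ip lc
  simp_rw [Finset.sum_mul, Finset.mul_sum]
  rw [Finset.sum_comm]
  exact Finset.sum_congr rfl fun i _ => Finset.sum_congr rfl fun l _ => by ring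

end Ess

open Ess

theorem ess_thm : ESSStmt := by
  intro d
  refine ⟨((1 / ((d : ℝ) + 1) / 2) ^ d)⁻¹ ^ 2, by positivity, ?_⟩
  intro Ω _ p Z v z hp hv
  classical
  set b : ℝ := (1 / ((d : ℝ) + 1) / 2) ^ d with hb
  have hb0 : 0 < b := by positivity
  set y : Ω → Fin d → ℝ := fun ω i => ip (v i) (fun l => Z ω l - z l) with hy
  set y0 : Fin d → ℝ := fun i => ip (v i) (fun l => (z l : ℝ)) with hy0
  -- the cell
  have hcell : ∀ ω, rd (Z ω) = z → b ^ 2 ≤ ‖∫ η in cube d, G (y ω) η‖ ^ 2 := by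
    intro ω hω
    refine pow_le_pow_left₀ hb0.le (int_cube (y ω) fun i => ?_) 2
    have hx : ∀ l, |Z ω l - z l| ≤ 1 := by
      intro l
      have e : ⌊Z ω l⌋ = z l := congrFun hω l
      have h1 := Int.floor_le (Z ω l)
      have h2 := Int.lt_floor_add_one (Z ω l)
      rw [e] at h1 h2
      rw [abs_le]
      constructor <;> linarith
    calc |y ω i| ≤ ∑ l, |v i l * (Z ω l - z l)| := Finset.abs_sum_le_sum_abs _ _
      _ ≤ ∑ _l : Fin d, (1 : ℝ) := Finset.sum_le_sum fun l _ => by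
          rw [abs_mul]
          calc |v i l| * |Z ω l - z l| ≤ 1 * 1 :=
                mul_le_mul (coord_le hv i l) (hx l) (abs_nonneg _) zero_le_one
            _ = 1 := one_mul 1
      _ = d := by simp
  have hlaw : law p (fun ω => rd (Z ω)) z ≤
      b⁻¹ ^ 2 * ∑ ω, p ω * ‖∫ η in cube d, G (y ω) η‖ ^ 2 := by
    unfold law
    rw [Finset.mul_sum]
    refine Finset.sum_le_sum fun ω _ => ?_
    split_ifs with h
    · have h1 := hcell ω h
      have h2 : 1 ≤ b⁻¹ ^ 2 * ‖∫ η in cube d, G (y ω) η‖ ^ 2 := by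
        rw [inv_pow, ← div_eq_inv_mul, one_le_div (by positivity)]
        exact h1
      calc p ω = p ω * 1 := (mul_one _).symm
        _ ≤ p ω * (b⁻¹ ^ 2 * ‖∫ η in cube d, G (y ω) η‖ ^ 2) :=
            mul_le_mul_of_nonneg_left h2 (hp.nonneg ω)
        _ = _ := by ring
    · have := hp.nonneg ω
      positivity
  have hcomp : IsCompact (cube d ×ˢ cube d) := (cube_compact d).prod (cube_compact d)
  have hsum : ((∑ ω, p ω * ‖∫ η in cube d, G (y ω) η‖ ^ 2 : ℝ) : ℂ) =
      ∫ η in cube d ×ˢ cube d, ∑ ω, (p ω : ℂ) * G (y ω) (η.1 - η.2) := by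
    rw [integral_finsetSum]
    · push_cast
      refine Finset.sum_congr rfl fun ω _ => ?_
      rw [MeasureTheory.integral_const_mul, int_cube2]
      push_cast
      rfl
    · intro ω _
      have hc : Continuous fun η : (Fin d → ℝ) × (Fin d → ℝ) =>
          (p ω : ℂ) * G (y ω) (η.1 - η.2) :=
        continuous_const.mul ((G_cont (y ω)).comp (continuous_fst.sub continuous_snd))
      exact hc.continuousOn.integrableOn_compact hcomp
  have hnorm : ∑ ω, p ω * ‖∫ η in cube d, G (y ω) η‖ ^ 2 ≤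
      ∫ η in cube d ×ˢ cube d, ‖∑ ω, (p ω : ℂ) * G (y ω) (η.1 - η.2)‖ := by
    have h1 : ∑ ω, p ω * ‖∫ η in cube d, G (y ω) η‖ ^ 2 ≤
        ‖((∑ ω, p ω * ‖∫ η in cube d, G (y ω) η‖ ^ 2 : ℝ) : ℂ)‖ := by
      rw [Complex.norm_real]
      exact Real.le_norm_self _
    refine h1.trans ?_
    rw [hsum]
    exact norm_integral_le_integral_norm _
  have heq : ∀ η : (Fin d → ℝ) × (Fin d → ℝ),
      ‖∑ ω, (p ω : ℂ) * G (y ω) (η.1 - η.2)‖ =
      ‖∑ ω, ((p ω : ℝ) : ℂ) *
        Complex.exp (Complex.I * (ip (lc v (η.1 - η.2)) (Z ω) : ℝ))‖ := by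
    intro η
    have e1 : ∀ ω, Complex.exp (Complex.I * (ip (lc v (η.1 - η.2)) (Z ω) : ℝ)) =
        G (y ω) (η.1 - η.2) * G y0 (η.1 - η.2) := by
      intro ω
      unfold G
      rw [← Complex.exp_add, ← mul_add, ← Complex.ofReal_add]
      congr 3
      rw [ip_lc, ← Finset.sum_add_distrib]
      refine Finset.sum_congr rfl fun i _ => ?_
      rw [← mul_add]
      congr 1
      simp only [hy, hy0, ip]
      rw [← Finset.sum_add_distrib]
      exact Finset.sum_congr rfl fun l _ => by ring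
    have e2 : ∑ ω, ((p ω : ℝ) : ℂ) *
        Complex.exp (Complex.I * (ip (lc v (η.1 - η.2)) (Z ω) : ℝ)) =
        (∑ ω, (p ω : ℂ) * G (y ω) (η.1 - η.2)) * G y0 (η.1 - η.2) := by
      rw [Finset.sum_mul]
      exact Finset.sum_congr rfl fun ω _ => by rw [e1, mul_assoc]
    rw [e2, norm_mul, norm_G, mul_one]
  simp_rw [heq] at hnorm
  calc law p (fun ω => rd (Z ω)) z ≤ _ := hlaw
    _ ≤ _ := mul_le_mul_of_nonneg_left hnorm (by positivity)

end Pool.KVA
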